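import Pool.Agent.REL34.Step3

/-!
# Theorem UC (helper95): the order of the symbols is decided in one star

`S` is a finite linked structure (any `-1`), set valued.  If `a` and `d` are symbols with the common
slot `g` and every `n` with `g n = d` is a slot of `a`, then every slot of `d` is a slot of `a`.
-/

set_option autoImplicit false
set_option linter.unusedSectionVars false

namespace Pool.Agent.UCT93

open Pool.Agent.Helper58.PLine (QData zm zm_ne_zero exists_functional)
open Pool.Agent.HAS82 (ind ind_and natCard_eq card_mul card_mono)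
open Pool.Agent.REL34
open scoped Classical
open Finset

variable {V Q : Type} [AddCommGroup V] [Module (ZMod 2) V] {S : QData V Q} {a : Q}
  {D : Submodule (ZMod 2) V} {l : V →ₗ[ZMod 2] ZMod 2} {u : V}

/-- the map `l · a` on `D` is locally inner, and `D` contains the annihilator of `u` -/
structure Tz (S : QData V Q) (a : Q) (D : Submodule (ZMod 2) V) (l : V →ₗ[ZMod 2] ZMod 2)
    (u : V) : Prop where
  hl : ∀ v ∈ D, l v ≠ 0 → Sl S a v
  an : ∀ t, S.q u t = S.z → t ∈ D

theorem Tz.zero (H : Tz S a D l u) : Tz S a D 0 u := ⟨fun _ _ h => absurd rfl h, H.an⟩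

theorem Tz.plane' (H : Tz S a D l u) {v w : V} (hv : v ∈ D) (hw : w ∈ D) :
    ∃ t0, S.q v t0 = val S a l v ∧ S.q w t0 = val S a l w := by
  by_cases e : l v = 0 <;> by_cases e' : l w = 0
  · exact ⟨0, by rw [q0, val_of0 e], by rw [q0, val_of0 e']⟩
  · have h1 : l (v + w) ≠ 0 := by rw [map_add, e, zero_add]; exact e'
    obtain ⟨t, h2, h3⟩ := lk (H.hl _ hw e') (H.hl _ (D.add_mem hv hw) h1)
    refine ⟨t, ?_, by rw [val_of1 e', h2]⟩
    have h4 := lc h2 h3
    rw [add_comm v, xxy] at h4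
    rw [h4, val_of0 e]
  · have h1 : l (v + w) ≠ 0 := by rw [map_add, e', add_zero]; exact e
    obtain ⟨t, h2, h3⟩ := lk (H.hl _ hv e) (H.hl _ (D.add_mem hv hw) h1)
    refine ⟨t, by rw [val_of1 e, h2], ?_⟩
    have h4 := lc h2 h3
    rw [xxy] at h4
    rw [h4, val_of0 e']
  · obtain ⟨t, h2, h3⟩ := lk (H.hl _ hv e) (H.hl _ hw e')
    exact ⟨t, by rw [val_of1 e, h2], by rw [val_of1 e', h3]⟩

theorem Tz.plane (H : Tz S a D l u) (v w : V) :
    ∃ t0, (v ∈ D → S.q v t0 = val S a l v) ∧ (w ∈ D → S.q w t0 = val S a l w) := by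
  by_cases hv : v ∈ D <;> by_cases hw : w ∈ D
  · obtain ⟨t, h1, h2⟩ := H.plane' hv hw
    exact ⟨t, fun _ => h1, fun _ => h2⟩
  · obtain ⟨t, h1, -⟩ := H.plane' hv hv
    exact ⟨t, fun _ => h1, fun h => absurd h hw⟩
  · obtain ⟨t, h1, -⟩ := H.plane' hw hw
    exact ⟨t, fun h => absurd h hv, fun _ => h1⟩
  · exact ⟨0, fun h => absurd h hv, fun h => absurd h hw⟩

theorem Tz.sup_le (H : Tz S a D l u) (u' t : V) :
    ∀ v ∈ KK S a D l t ⊔ KK S a D l (t + u'), PE S a D l u' t v := by
  intro v hv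
  obtain ⟨x, hx, y, hy, rfl⟩ := Submodule.mem_sup.1 hv
  obtain ⟨t0, h1, h2⟩ := H.plane' hx.1 hy.1
  refine ⟨D.add_mem hx.1 hy.1, t0, val_add h1 h2, y, hy.1, ?_⟩
  have h3 : S.q x (t0 + t) = S.z := rc h1 hx.2
  have h4 : S.q y (t0 + (t + u')) = S.z := rc h2 hy.2
  rw [← add_assoc, ← S.add] at h4
  rw [add_comm]
  exact l0 h4 h3

/-- termwise equality -/
theorem Tz.tw [Fintype V] (H : Tz S a D l u) (t : V) :
    Nat.card (KK S a D l t) * Nat.card (KK S a D l (t + u)) =
      (∑ v : V, ind (PE S a D l u t v)) *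
      Nat.card (KK S a D l t ⊓ KK S a D l (t + u) : Submodule (ZMod 2) V) := by
  have hs : ∀ l' : V →ₗ[ZMod 2] ZMod 2, ∑ t : V, Nat.card (KK S a D l' t) *
      Nat.card (KK S a D l' (t + u)) = ∑ t : V, ∑ v : V, ∑ w : V,
      ind (v ∈ KK S a D l' t ∧ w ∈ KK S a D l' (t + u)) := by
    intro l'
    refine Finset.sum_congr rfl fun t _ => ?_
    rw [natCard_eq, natCard_eq, ind_mul_sum]
  have hr : ∀ l' : V →ₗ[ZMod 2] ZMod 2, ∑ t : V, (∑ v : V, ind (PE S a D l' u t v)) *
      Nat.card (KK S a D l' t ⊓ KK S a D l' (t + u) : Submodule (ZMod 2) V) =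
      ∑ t : V, ∑ v : V, ∑ w : V,
      ind (PE S a D l' u t v ∧ w ∈ KK S a D l' t ⊓ KK S a D l' (t + u)) := by
    intro l'
    refine Finset.sum_congr rfl fun t _ => ?_
    rw [natCard_eq, ind_mul_sum]
  have e1 : ∑ t : V, Nat.card (KK S a D l t) * Nat.card (KK S a D l (t + u)) =
      ∑ t : V, Nat.card (KK S a D 0 t) * Nat.card (KK S a D 0 (t + u)) := by
    rw [hs, hs]
    refine shiftG _ _ fun v w => ?_
    obtain ⟨t0, h1, h2⟩ := H.plane v w
    refine ⟨t0, fun t => ?_⟩
    rw [sh1 h1 t, sh1 h2 (t + u), show t + u + t0 = t + t0 + u by abel]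
  have e2 : ∑ t : V, (∑ v : V, ind (PE S a D l u t v)) *
      Nat.card (KK S a D l t ⊓ KK S a D l (t + u) : Submodule (ZMod 2) V) =
      ∑ t : V, (∑ v : V, ind (PE S a D 0 u t v)) *
      Nat.card (KK S a D 0 t ⊓ KK S a D 0 (t + u) : Submodule (ZMod 2) V) := by
    rw [hr, hr]
    refine shiftG _ _ fun v w => ?_
    obtain ⟨t0, h1, h2⟩ := H.plane v w
    refine ⟨t0, fun t => ?_⟩
    rw [sh2 h1 t, Submodule.mem_inf, Submodule.mem_inf, sh1 h2 t, sh1 h2 (t + u),
      show t + u + t0 = t + t0 + u by abel]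
  have e3 : ∀ t : V, Nat.card (KK S a D 0 t) * Nat.card (KK S a D 0 (t + u)) =
      (∑ v : V, ind (PE S a D 0 u t v)) *
      Nat.card (KK S a D 0 t ⊓ KK S a D 0 (t + u) : Submodule (ZMod 2) V) := by
    intro t
    rw [cm_iff _ _ _ (H.zero.sup_le u t)]
    rintro v ⟨hv, t0, h1, v', hv', h2⟩
    rw [val_zero] at h1
    have h3 : S.q v t = S.q v' u := by
      rw [← h2, S.add, show t + (t0 + t) = t0 + (t + t) by abel, ss, add_zero, h1]
    obtain ⟨x, h4, h5⟩ := S.link t v u v' (by rw [S.symm t, S.symm u, h3])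
    have h6 : S.q x t = S.q v t := by rw [S.symm x, ← h4, S.symm]
    have h7 : S.q x u = S.q v' u := by rw [S.symm x, ← h5, S.symm]
    have hx : x ∈ D := by
      have h8 : S.q (v' + x) u = S.z := lc rfl h7
      have h9 := D.add_mem hv' (H.an _ (by rw [S.symm]; exact h8))
      rwa [xxy] at h9
    have : v = (v + x) + x := by rw [xyy]
    rw [this]
    refine Submodule.add_mem_sup ⟨D.add_mem hv hx, ?_⟩ ⟨hx, ?_⟩
    · rw [val_zero]
      exact lc rfl h6
    · rw [val_zero, ← S.add, h6, h7, h3]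
  have e4 : ∑ t : V, Nat.card (KK S a D l t) * Nat.card (KK S a D l (t + u)) =
      ∑ t : V, (∑ v : V, ind (PE S a D l u t v)) *
      Nat.card (KK S a D l t ⊓ KK S a D l (t + u) : Submodule (ZMod 2) V) := by
    rw [e1, e2]
    exact Finset.sum_congr rfl fun t _ => e3 t
  exact (Finset.sum_eq_sum_iff_of_le fun t _ => cm_le _ _ _ (H.sup_le u t)).1 e4 t
    (Finset.mem_univ _)

/-- the product of the orders of the two kernels does not change -/
theorem Tz.prod [Fintype V] (H : Tz S a D l u) (h0 : ∀ t, S.q u t = S.z → l t = 0)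
    {m : V} (hm : S.q u m = a) (hmD : m ∈ D) (t : V) :
    Nat.card (KK S a D l t) * Nat.card (KK S a D l (t + u)) =
      Nat.card (KK S a D 0 t) * Nat.card (KK S a D 0 (t + u)) := by
  have hug : Sl S a u := ⟨m, hm⟩
  rw [H.tw, H.zero.tw]
  congr 1
  · refine Finset.sum_congr rfl fun v _ => ?_
    congr 1
    apply propext
    unfold PE
    refine and_congr_right fun hv => ?_
    by_cases hlv : l v = 0
    · rw [val_of0 hlv, val_zero]
    · rw [val_of1 hlv, val_zero]
      obtain ⟨w, hw1, hw2⟩ := lk (H.hl v hv hlv) hug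
      have hwD : w ∈ D := by
        have h1 : S.q u (m + w) = S.z := rc hm hw2
        have h2 := D.add_mem hmD (H.an _ h1)
        rwa [xxy] at h2
      constructor
      · rintro ⟨t0, h1, v', hv', h2⟩
        obtain ⟨x, h3, h4⟩ := S.link v (t0 + t) u v' (by rw [h2, S.symm])
        refine ⟨0, q0 v, x + w, ?_, ?_⟩
        · have h5 : S.q u (v' + x) = S.z := rc rfl h4.symm
          have h6 := D.add_mem hv' (H.an _ h5)
          rw [xxy] at h6
          exact D.add_mem h6 hwD
        · rw [zero_add]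
          have e1 : S.q v (t0 + t + x) = S.z := rc h3 rfl
          have e2 : S.q v (t0 + w) = S.z := rc h1 hw1
          have e3 : S.q v (t + (x + w)) = S.z := by
            have := rc e1 e2
            rw [show t0 + t + x + (t0 + w) = (t0 + t0) + (t + (x + w)) by abel, ss,
              zero_add] at this
            exact this
          have e4 : S.q v t = S.q v (x + w) := (S.add _ _ _).2 e3
          have e5 : S.q v x = S.q u x := by rw [← h3, h2, S.symm v', h4]
          have e6 : S.q (v + u) x = S.z := (ladd _ _ _).1 e5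
          have e7 : S.q (v + u) w = S.z := lc hw1 hw2
          have e8 : S.q (v + u) (x + w) = S.z := rc e6 e7
          rw [e4, (ladd _ _ _).2 e8, S.symm]
      · rintro ⟨t0, h1, v', hv', h2⟩
        have h2' : S.q v t = S.q v' u := by
          rw [← h2, S.add, show t + (t0 + t) = t0 + (t + t) by abel, ss, add_zero, h1]
        obtain ⟨x, h3, h4⟩ := S.link v t u v' (by rw [h2', S.symm])
        refine ⟨w, hw1, x + w, ?_, ?_⟩
        · have h5 : S.q u (v' + x) = S.z := rc rfl h4.symm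
          have h6 := D.add_mem hv' (H.an _ h5)
          rw [xxy] at h6
          exact D.add_mem h6 hwD
        · have e1 : S.q v (t + x) = S.z := rc h3 rfl
          have e4 : S.q v (w + t) = S.q v (x + w) := by
            rw [S.add, show w + t + (x + w) = (w + w) + (t + x) by abel, ss, zero_add]
            exact e1
          have e5 : S.q v x = S.q u x := by rw [← h3, h2', S.symm v', h4]
          have e6 : S.q (v + u) x = S.z := (ladd _ _ _).1 e5
          have e7 : S.q (v + u) w = S.z := lc hw1 hw2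
          have e8 : S.q (v + u) (x + w) = S.z := rc e6 e7
          rw [e4, (ladd _ _ _).2 e8, S.symm]
  · have key : ∀ l' : V →ₗ[ZMod 2] ZMod 2, (∀ t, S.q u t = S.z → l' t = 0) → ∀ v,
        v ∈ KK S a D l' t ⊓ KK S a D l' (t + u) ↔ v ∈ D ∧ S.q v t = S.z ∧ S.q v u = S.z := by
      intro l' h0' v
      rw [Submodule.mem_inf, mem_KK, mem_KK]
      constructor
      · rintro ⟨⟨h1, h2⟩, -, h3⟩
        have h4 : S.q v (t + (t + u)) = S.z := rc h2 h3
        rw [xxy] at h4
        refine ⟨h1, ?_, h4⟩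
        rw [h2, val_of0 (h0' v (by rw [S.symm, h4]))]
      · rintro ⟨h1, h2, h3⟩
        have h5 := h0' v (by rw [S.symm, h3])
        rw [val_of0 h5]
        exact ⟨⟨h1, h2⟩, h1, r0 h2 h3⟩
    have : (KK S a D l t ⊓ KK S a D l (t + u) : Submodule (ZMod 2) V) =
        KK S a D 0 t ⊓ KK S a D 0 (t + u) := by
      ext v
      rw [key l h0 v, key 0 (fun _ _ => rfl) v]
    rw [this]

theorem KK_ker (t : V) :
    (KK S a D l t ⊓ LinearMap.ker l : Submodule (ZMod 2) V) = KK S a D 0 t ⊓ LinearMap.ker l := by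
  ext v
  rw [Submodule.mem_inf, Submodule.mem_inf, mem_KK, mem_KK, val_zero, LinearMap.mem_ker]
  constructor
  · rintro ⟨⟨h1, h2⟩, h3⟩
    rw [val_of0 h3] at h2
    exact ⟨⟨h1, h2⟩, h3⟩
  · rintro ⟨⟨h1, h2⟩, h3⟩
    rw [val_of0 h3]
    exact ⟨⟨h1, h2⟩, h3⟩

theorem card_nohalf {K : Submodule (ZMod 2) V} (h : ∀ v ∈ K, l v = 0) :
    Nat.card K = Nat.card (K ⊓ LinearMap.ker l : Submodule (ZMod 2) V) := by
  have : K = K ⊓ LinearMap.ker l := by
    ext v
    rw [Submodule.mem_inf, LinearMap.mem_ker]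
    exact ⟨fun hv => ⟨hv, h v hv⟩, fun hv => hv.1⟩
  rw [← this]

/-- **Theorem UC** (helper95). -/
theorem uc [Fintype V] (S : QData V Q) {g : V} {a d : Q} (ha : a ≠ S.z) (hd : d ≠ S.z)
    (hga : Sl S a g) (hgd : Sl S d g) (h : ∀ n, S.q g n = d → Sl S a n) {x : V}
    (hx : Sl S d x) : Sl S a x := by
  by_contra hxa
  by_cases hne : a = d
  · exact hxa (hne ▸ hx)
  obtain ⟨m, hm⟩ := hga
  obtain ⟨n, hn⟩ := hgd
  -- the subspace `X'`
  let A : Submodule (ZMod 2) V := S.ann g
  have memA : ∀ v, v ∈ A ↔ S.q g v = S.z := fun v => Iff.rfl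
  have hmn : S.q g (m + n) ≠ S.z := by
    rw [Ne, ← S.add, hm, hn]
    exact hne
  let D : Submodule (ZMod 2) V := A ⊔ Submodule.span (ZMod 2) {m, n}
  have hspan : ∀ w, w ∈ Submodule.span (ZMod 2) ({m, n} : Set V) →
      w = 0 ∨ w = m ∨ w = n ∨ w = m + n := by
    intro w hw
    obtain ⟨c, c', rfl⟩ := Submodule.mem_span_pair.1 hw
    rcases zm c with rfl | rfl <;> rcases zm c' with rfl | rfl <;> simp
  have hAD : ∀ t, S.q g t = S.z → t ∈ D := fun t ht => Submodule.mem_sup_left ht
  have hmD : m ∈ D := Submodule.mem_sup_right (Submodule.subset_span (by simp))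
  have hnD : n ∈ D := Submodule.mem_sup_right (Submodule.subset_span (by simp))
  -- the functional
  have hmp : m ∉ A ⊔ Submodule.span (ZMod 2) {m + n} := by
    intro hc
    obtain ⟨y, hy, w, hw, hyw⟩ := Submodule.mem_sup.1 hc
    obtain ⟨c, rfl⟩ := Submodule.mem_span_singleton.1 hw
    rcases zm c with rfl | rfl
    · rw [zero_smul, add_zero] at hyw
      rw [hyw] at hy
      exact ha (hm ▸ hy)
    · rw [one_smul] at hyw
      have h1 : y = n := by
        have : y + (m + n) + (m + n) = m + (m + n) := by rw [hyw]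
        rwa [xyy, xxy] at this
      rw [h1] at hy
      exact hd (hn ▸ hy)
  obtain ⟨l, hl1, hl2⟩ := exists_functional hmp
  have hlA : ∀ t, S.q g t = S.z → l t = 0 := fun t ht => hl2 t (Submodule.mem_sup_left ht)
  have hlm : l m ≠ 0 := by rw [hl1]; decide
  have hln : l n ≠ 0 := by
    have h1 : l (m + n) = 0 := hl2 _ (Submodule.mem_sup_right (Submodule.mem_span_singleton_self _))
    rw [map_add, hl1] at h1
    intro h2
    rw [h2] at h1
    exact absurd h1 (by decide)
  have va : ∀ v, S.q g v = a → v ∈ D ∧ l v ≠ 0 := by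
    intro v hv
    have h1 : S.q g (m + v) = S.z := rc hm hv
    refine ⟨?_, ?_⟩
    · have := D.add_mem hmD (hAD _ h1)
      rwa [xxy] at this
    · have h2 := hlA _ h1
      rw [map_add] at h2
      intro h3
      rw [h3, add_zero] at h2
      exact hlm h2
  have vd : ∀ v, S.q g v = d → v ∈ D ∧ l v ≠ 0 := by
    intro v hv
    have h1 : S.q g (n + v) = S.z := rc hn hv
    refine ⟨?_, ?_⟩
    · have := D.add_mem hnD (hAD _ h1)
      rwa [xxy] at this
    · have h2 := hlA _ h1
      rw [map_add] at h2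
      intro h3
      rw [h3, add_zero] at h2
      exact hln h2
  have H : Tz S a D l g := by
    refine ⟨?_, hAD⟩
    intro v hv hlv
    obtain ⟨y, hy, w, hw, rfl⟩ := Submodule.mem_sup.1 hv
    have hy0 : l y = 0 := hlA _ hy
    rw [map_add, hy0, zero_add] at hlv
    rcases hspan w hw with rfl | rfl | rfl | rfl
    · exact absurd (map_zero l) hlv
    · refine Sl.co (s := g) ?_
      rw [add_comm]
      exact r0 hm hy
    · refine h _ ?_
      rw [add_comm]
      exact r0 hn hy
    · exact absurd (hl2 _ (Submodule.mem_sup_right (Submodule.mem_span_singleton_self _))) hlv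
  have key := H.prod hlA hm hmD x
  -- the four orders
  have c1 : Nat.card (KK S a D l x) =
      Nat.card (KK S a D l x ⊓ LinearMap.ker l : Submodule (ZMod 2) V) := by
    refine card_nohalf fun v hv => ?_
    by_contra h1
    have h2 := hv.2
    rw [val_of1 h1] at h2
    exact hxa (Sl.co h2)
  obtain ⟨v1, hv1, hv1'⟩ := lk hx (⟨n, hn⟩ : Sl S d g)
  have hv1D := vd v1 hv1'
  have c2 : Nat.card (KK S a D 0 (x + g)) =
      2 * Nat.card (KK S a D 0 (x + g) ⊓ LinearMap.ker l : Submodule (ZMod 2) V) := by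
    refine card_half (w := v1) ⟨hv1D.1, ?_⟩ hv1D.2
    rw [val_zero, S.symm]
    exact lc hv1 hv1'
  have pos : ∀ K : Submodule (ZMod 2) V, 0 < Nat.card K := fun K => Nat.card_pos
  by_cases hA : ∃ v ∈ KK S a D l (x + g), l v ≠ 0
  · obtain ⟨v2, hv2, hv2'⟩ := hA
    have h1 := hv2.2
    rw [val_of1 hv2'] at h1
    obtain ⟨v3, h3, h4⟩ := lk (Sl.co h1) (⟨m, hm⟩ : Sl S a g)
    have h5 := va v3 h4
    have h6 : S.q v3 x = S.z := by
      have := lc h3 h4
      rw [xyy] at this
      rw [S.symm]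
      exact this
    have c3 : Nat.card (KK S a D 0 x) =
        2 * Nat.card (KK S a D 0 x ⊓ LinearMap.ker l : Submodule (ZMod 2) V) := by
      refine card_half (w := v3) ⟨h5.1, ?_⟩ h5.2
      rw [val_zero]
      exact h6
    have c4 : Nat.card (KK S a D l (x + g)) =
        2 * Nat.card (KK S a D l (x + g) ⊓ LinearMap.ker l : Submodule (ZMod 2) V) :=
      card_half hv2 hv2'
    rw [c1, c2, c3, c4, KK_ker, KK_ker] at key
    have p1 := pos (KK S a D 0 x ⊓ LinearMap.ker l)
    have p2 := pos (KK S a D 0 (x + g) ⊓ LinearMap.ker l)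
    have p3 := Nat.mul_pos p1 p2
    nlinarith
  · push Not at hA
    have c4 : Nat.card (KK S a D l (x + g)) =
        Nat.card (KK S a D l (x + g) ⊓ LinearMap.ker l : Submodule (ZMod 2) V) :=
      card_nohalf fun v hv => by
        by_contra hc
        exact hc (hA v hv)
    have c5 : Nat.card (KK S a D 0 x ⊓ LinearMap.ker l : Submodule (ZMod 2) V) ≤
        Nat.card (KK S a D 0 x) := card_mono inf_le_left
    rw [c1, c2, c4, KK_ker, KK_ker] at key
    have p1 := pos (KK S a D 0 x ⊓ LinearMap.ker l)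
    have p2 := pos (KK S a D 0 (x + g) ⊓ LinearMap.ker l)
    have p3 := Nat.mul_pos p1 p2
    nlinarith [Nat.mul_le_mul_right
      (Nat.card (KK S a D 0 (x + g) ⊓ LinearMap.ker l : Submodule (ZMod 2) V)) c5]

end Pool.Agent.UCT93
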